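import Pool.Agent.H499.IR.Thm

/-!
# Irreducibility is visible modulo a power of `ℓ` and at most primes

Let `K` be a number field (`K = ℚ` in Q1), `ℓ` a prime number, `S` a finite set of finite places of `K`,
`α v = (α v 1, ..., α v n)` for `v ∉ S` the Satake parameters of an algebraic cuspidal automorphic
representation `π` of `GL_n` (in Clozel's normalisation, transported to the algebraic closure of `ℚ_ℓ`), and `ρ` a
continuous semisimple representation of the absolute Galois group attached to `π`, `n ≥ 1`. Cuspidality should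
imply that `ρ` is irreducible. If `ρ` is REDUCIBLE, then for every `m` the Hecke traces of `π` modulo `ℓ ^ m`
are sums of the traces of two smaller representations over the integers modulo `ℓ ^ m`. We prove the converse, in a
strong form.

1. The following are equivalent.
   (a) `ρ` is irreducible.
   (b) For some `m` there are no representations `r₁`, `r₂` of `G_K` over the integers modulo `ℓ ^ m` (of the
       algebraic closure of `ℚ_ℓ`), with open kernels, of dimensions `a, b > 0` with `a + b = n`, such that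
       `tr r₁(Frob_v) + tr r₂(Frob_v)` is the Hecke trace modulo `ℓ ^ m` at ALL `v ∉ S`.
   (c) For some `m` there is no LINEAR COMBINATION `∑ c_i tr r_i` of the traces of representations `r_i` of `G_K`
       over the integers modulo `ℓ ^ m`, with any coefficients, of any dimensions `d_i` with `∑ d_i ² < n ²`,
       with open kernels and any ramification, which is equal to the Hecke trace modulo `ℓ ^ m` outside a set
       of places of upper density at most `δ`, where `δ < 1 / (n ² + ∑ d_i ²)` (for instance `δ < 1 / (2 n ²)`).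
   (d) Some Gram determinant `det (tr ρ(g_i g_j))`, `i, j ≤ n ²`, is not zero; and then every `m` such that it is not
       divisible by `ℓ ^ m` has the property (c).
   So one number `det (tr ρ(g_i g_j))` modulo `ℓ ^ m`, which is given by the Hecke traces of `π` at `n ⁴` places modulo
   `ℓ ^ m`, is a certificate of irreducibility for `ρ`, and shows that the eigenvalue system is not of Eisenstein type
   modulo `ℓ ^ m`, not even at most of the primes.
2. The property is open and the same certificate works: if `π'` is another automorphic representation, of any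
   weight and level, with attached `ρ'`, and the Hecke traces of `π` and `π'` are congruent modulo `ℓ ^ m` outside
   a set of places of upper density less than `1 / (2 n ²)`, where `ℓ ^ m` does not divide a Gram determinant of
   `ρ`, then `ρ'` is irreducible, with the same absolute value of the Gram determinant.
3. For the representations unramified outside `S` which are residually unipotent on a fixed open subgroup `U`
   (called admissible) there is a FINITE set `P` of places outside `S`, depending only on `K, ℓ, n, S, U` and not on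
   `m`, `ρ`, `ρ'` or the weights, such that in 2 it is enough to have the congruence at the places of `P`, and such
   that an admissible representation modulo `ℓ ^ m` which has the traces of `ρ` at `P` is not reducible in the sense
   of (b), (c).

For example, if `π` is, for infinitely many `m`, congruent modulo `ℓ ^ m` at most primes to some `π_m` for which
`ρ_{π_m}` is reducible, then `ρ_π` is reducible; and if `ρ_π` is irreducible then all `ρ_{π'}` are irreducible, for
all `π'` which are `ℓ`-adically near to `π` at most primes, or at the places of `P`.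

The theory of pseudo-representations (Bellaïche and Chenevier) gives an ideal of reducibility if the
residual representation is multiplicity free, and all traces are used. Here nothing is assumed on the
residual representation, which can for example be trivial.

Idea of the proof. Over a ring in which the ideals are totally ordered the module generated by the matrices
`(ρ(g), r_1(g), ..., r_k(g))` is generated by at most `n ² + ∑ d_i ²` of them, which can be translated into a
set of measure greater than `1 - 1 / (n ² + ∑ d_i ²)`; so the traces agree everywhere. The `n ²` by `n ²` Gram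
matrix of a combination of representations with `∑ d_i ² < n ²` factors through a free module of smaller rank,
so its determinant is zero.
-/

set_option autoImplicit false

namespace Pool.Agent.Results.MP_fa5bba_nt.IrreducibilityModuloPowers

open NumberField IsDedekindDomain
open Pool.Agent.W401.Cheb (GK IsFrob IsInert)
open Pool.Agent.H499.CM Pool.Agent.H499.PW Pool.Agent.H499.IR

/-- families of Satake parameters -/
abbrev Params (K : Type) [Field K] [NumberField K] (ℓ : ℕ) [Fact ℓ.Prime] (n : ℕ) : Type :=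
  HeightOneSpectrum (𝓞 K) → Fin n → PadicAlgCl ℓ

/-- representations of the absolute Galois group over the algebraic closure of `ℚ_ℓ` -/
abbrev Rep (K : Type) [Field K] [NumberField K] (ℓ : ℕ) [Fact ℓ.Prime] (n : ℕ) : Type :=
  GK K →* GL (Fin n) (PadicAlgCl ℓ)

/-- the integers of the algebraic closure of `ℚ_ℓ` modulo `ℓ ^ m` -/
def Tor (ℓ : ℕ) [Fact ℓ.Prime] (m : ℕ) : Type := OO ℓ ⧸ Ideal.span {(ℓ : OO ℓ) ^ m}

noncomputable instance instTor (ℓ : ℕ) [Fact ℓ.Prime] (m : ℕ) : CommRing (Tor ℓ m) :=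
  Ideal.Quotient.commRing (Ideal.span {(ℓ : OO ℓ) ^ m})

/-- reduction modulo `ℓ ^ m` -/
noncomputable def red (ℓ : ℕ) [Fact ℓ.Prime] (m : ℕ) : OO ℓ →+* Tor ℓ m :=
  Ideal.Quotient.mk (Ideal.span {(ℓ : OO ℓ) ^ m})

/-- the trace -/
def tr {G A : Type} [Group G] [CommRing A] {n : ℕ} (r : G →* GL (Fin n) A) (σ : G) : A :=
  (r σ : Matrix (Fin n) (Fin n) A).trace

section

variable (K : Type) [Field K] [NumberField K] (ℓ : ℕ) [Fact ℓ.Prime] (n : ℕ)
  (S : Set (HeightOneSpectrum (𝓞 K)))

/-- Modulo `ℓ ^ m` the traces `∑ i, α v i` are sums of the traces of two representations of smaller dimension, at all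
`v ∉ S`. -/
def Splits (α : Params K ℓ n) (m : ℕ) : Prop :=
  ∃ a b : ℕ, 0 < a ∧ 0 < b ∧ a + b = n ∧ ∃ (r₁ : GK K →* GL (Fin a) (Tor ℓ m)) (r₂ : GK K →* GL (Fin b) (Tor ℓ m)),
    IsOpen (r₁.ker : Set (GK K)) ∧ IsOpen (r₂.ker : Set (GK K)) ∧ ∀ v ∉ S, TwoMod (red ℓ m) r₁ r₂ v (α v)

/-- Modulo `ℓ ^ m` the traces `∑ i, α v i` are not combinations of the traces of small representations, not even at
most of the `v ∉ S`. -/
def NoSmall (α : Params K ℓ n) (m : ℕ) : Prop :=
  ∀ (k : ℕ) (d : Fin k → ℕ) (c : Fin k → Tor ℓ m) (r : ∀ i, GK K →* GL (Fin (d i)) (Tor ℓ m)) (δ : ℝ),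
    ∑ i, d i ^ 2 < n ^ 2 → (∀ i, IsOpen ((r i).ker : Set (GK K))) →
    δ * ((n ^ 2 + ∑ i, d i ^ 2 : ℕ) : ℝ) < 1 →
    ¬ UpperDensityLE (fun v => v ∉ S ∧ ¬ CombMod (red ℓ m) c r v (α v)) δ

/-- 1. -/
def Equivalences : Prop :=
  ∀ (α : Params K ℓ n) (strict : Bool) (ρ : Rep K ℓ n), Attached S α strict ρ →
    (Irr ρ ↔ ∃ m, ¬ Splits K ℓ n S α m) ∧ (Irr ρ ↔ ∃ m, NoSmall K ℓ n S α m) ∧
    (Irr ρ ↔ ∃ g, gram ρ g ≠ 0) ∧
    ∀ (g : Fin (n ^ 2) → GK K) (m : ℕ), ‖(ℓ : PadicAlgCl ℓ)‖ ^ m < ‖gram ρ g‖ → NoSmall K ℓ n S α m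

/-- 2. -/
def Stability : Prop :=
  ∀ (α α' : Params K ℓ n) (strict : Bool) (ρ ρ' : Rep K ℓ n), Attached S α strict ρ → Attached S α' strict ρ' →
    ∀ (g : Fin (n ^ 2) → GK K) (m : ℕ) (δ : ℝ), ‖(ℓ : PadicAlgCl ℓ)‖ ^ m < ‖gram ρ g‖ → δ * (2 * n ^ 2) < 1 →
      UpperDensityLE (fun v => v ∉ S ∧ ¬ ‖∑ i, α v i - ∑ i, α' v i‖ ≤ ‖(ℓ : PadicAlgCl ℓ)‖ ^ m) δ →
      Irr ρ' ∧ ‖gram ρ' g‖ = ‖gram ρ g‖

/-- 3. -/
def FinitelyManyPlaces (U : Subgroup (GK K)) (P : Finset (HeightOneSpectrum (𝓞 K))) : Prop :=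
  ∀ (ρ : Rep K ℓ n) (g : Fin (n ^ 2) → GK K) (m : ℕ), AdmAdic S U ρ → ‖(ℓ : PadicAlgCl ℓ)‖ ^ m < ‖gram ρ g‖ →
    (∀ ρ' : Rep K ℓ n, AdmAdic S U ρ' →
      (∀ v ∈ P, ∀ σ, IsFrob v σ → ‖tr ρ σ⁻¹ - tr ρ' σ⁻¹‖ ≤ ‖(ℓ : PadicAlgCl ℓ)‖ ^ m) →
      Irr ρ' ∧ ‖gram ρ' g‖ = ‖gram ρ g‖) ∧
    ∀ R : GK K →* GL (Fin n) (Tor ℓ m), AdmMod S U (red ℓ m) R →
      (∀ v ∈ P, ∀ σ, IsFrob v σ → ∃ t : OO ℓ, (t : PadicAlgCl ℓ) = tr ρ σ⁻¹ ∧ tr R σ⁻¹ = red ℓ m t) →
      ∀ (k : ℕ) (d : Fin k → ℕ) (c : Fin k → Tor ℓ m) (r : ∀ i, GK K →* GL (Fin (d i)) (Tor ℓ m)),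
        ∑ i, d i ^ 2 < n ^ 2 → ¬ ∀ σ, tr R σ = ∑ i, c i * tr (r i) σ

end

theorem result (K : Type) [Field K] [NumberField K] (ℓ : ℕ) [Fact ℓ.Prime] (n : ℕ) (hn : 0 < n)
    (S : Set (HeightOneSpectrum (𝓞 K))) (hS : S.Finite) :
    Equivalences K ℓ n S ∧ Stability K ℓ n S ∧
    ∀ U : Subgroup (GK K), IsOpen (U : Set (GK K)) → ∃ P : Finset (HeightOneSpectrum (𝓞 K)), (∀ v ∈ P, v ∉ S) ∧
      FinitelyManyPlaces K ℓ n S U P := by
  refine ⟨fun α strict ρ hρ => ?_, fun α α' strict ρ ρ' h1 h2 g m δ h3 h4 h5 =>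
    irr_near hS hn h1 h2 g m h3 δ h4 h5, fun U hU => ?_⟩
  · have hno : ∀ (g : Fin (n ^ 2) → GK K) (m : ℕ), ‖(ℓ : PadicAlgCl ℓ)‖ ^ m < ‖gram ρ g‖ →
        NoSmall K ℓ n S α m := fun g m hg k d c r δ hd hr hδ h => no_small hS hρ g m hg d c r δ hd hr hδ h
    have : NeZero n := ⟨hn.ne'⟩
    have h1 : Irr ρ → ∃ g, gram ρ g ≠ 0 := fun h => exists_gram h
    have h2 : (∃ g, gram ρ g ≠ 0) → ∃ m, NoSmall K ℓ n S α m := fun ⟨g, hg⟩ => by
      obtain ⟨m, hm⟩ := exists_pow_lt hg
      exact ⟨m, hno g m hm⟩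
    have h3 : ∀ m, NoSmall K ℓ n S α m → ¬ Splits K ℓ n S α m := by
      rintro m h ⟨a, b, ha, hb, hab, r₁, r₂, ho1, ho2, htr⟩
      refine h 2 (Fin.cons a (Fin.cons b Fin.elim0)) (fun _ => 1) (Fin.cons r₁ (Fin.cons r₂ fun i => Fin.elim0 i))
        0 ?_ ?_ (by rw [zero_mul]; exact one_pos) ?_
      · rw [Fin.sum_univ_two]
        show a ^ 2 + b ^ 2 < n ^ 2
        rw [← hab]
        nlinarith [Nat.mul_pos ha hb]
      · intro i
        fin_cases i
        · exact ho1
        · exact ho2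
      · refine density_of_few fun c' hc' => ?_
        have e : (fun v => v ∉ S ∧ ¬ CombMod (k := 2) (d := Fin.cons a (Fin.cons b Fin.elim0)) (red ℓ m)
            (fun _ => 1) (Fin.cons r₁ (Fin.cons r₂ fun i => Fin.elim0 i)) v (α v)) = fun _ => False := by
          funext v
          refine propext ⟨fun hv => hv.2 (two_to_comb (red ℓ m) r₁ r₂ v (α v) (htr v hv.1)), fun h => h.elim⟩
        rw [e]
        have h5 := (Pool.Agent.X320.DS.dens_finite (K := K) ∅ Set.finite_empty).eventually (gt_mem_nhds hc')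
        exact h5.mono fun N hN => hN.le
    have h4 : (∃ m, ¬ Splits K ℓ n S α m) → Irr ρ := by
      rintro ⟨m, hm⟩
      by_contra hcon
      obtain ⟨a, b, ha, hb, hab, h⟩ := splits hρ hn hcon
      obtain ⟨r₁, r₂, h5, h6, h7⟩ := h m
      exact hm ⟨a, b, ha, hb, hab, r₁, r₂, h5, h6, h7⟩
    refine ⟨⟨fun h => ?_, h4⟩, ⟨fun h => h2 (h1 h), fun ⟨m, hm⟩ => h4 ⟨m, h3 m hm⟩⟩,
      ⟨h1, fun ⟨g, hg⟩ => irr_of_gram hg⟩, hno⟩
    obtain ⟨m, hm⟩ := h2 (h1 h)
    exact ⟨m, h3 m hm⟩
  · obtain ⟨P, hPS, hP⟩ := exists_P (n := n) (ℓ := ℓ) S hS U hU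
    exact ⟨P, hPS, fun ρ g m hρ hg => ⟨fun ρ' hρ' h => irr_near_finite hP hn hρ hρ' g m hg h,
      fun R hR h k d c r hd htr => no_small_finite hP hρ g m hg R hR h d c r hd htr⟩⟩

end Pool.Agent.Results.MP_fa5bba_nt.IrreducibilityModuloPowers
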