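import Pool.Agent.H500.ME.Irr

set_option autoImplicit false
set_option linter.unusedSectionVars false

/-!
# Irreducibility of the Galois representations attached to `π` with solvable residual images

Let `π` be an algebraic cuspidal automorphic representation of `GL_n` over a number field `K` (for Q1:
`K = ℚ`), of any infinity type, unramified at the places `v ∤ N`, with Hecke polynomials `P v` (of
`π_v ⊗ |det|^((1-n)/2)`) with coefficients in the ring of integers of a number field `E`.  Suppose that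
for a set of primes `λ` of `E` of positive upper density the `P v` are matched modulo `λ` by a residual
representation of the absolute Galois group of `K` with solvable image.

Then for ALL primes `ℓ` there are `ℓ-adic` representations attached to `π`, and every one of them is
irreducible.

The only facts about `π` which are used (as hypotheses on the `P v`, for one embedding `τ : E → ℂ`):

* the bound of Jacquet and Shalika for the Satake parameters at ONE place `v₀`;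
* the Rankin-Selberg `L`-function `L(s, π × π^∨)` has at most a simple pole at the edge `s = 1`
  (Jacquet, Piatetski-Shapiro and Shalika), in the weak form: the sum of `|a_v|² (N v)^(-(w+s))`, `a_v`
  the trace, is at most `c log(1/(s-1))` with a constant `c < 2` for some `s > 1` arbitrarily near `1`.
  (For `Re s > 1` the logarithm of `L(s, π × π^∨)` is a series with nonnegative terms which contains these
  terms, so for a cuspidal `π` the sum is at most `log(1/(s-1)) + O(1)`.)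
-/

namespace Pool.Agent.Results.MP_fa5bba_nt.SolvableResidualImages

open NumberField IsDedekindDomain Filter Topology Polynomial
open Pool.Agent.W401.Cheb (GK IsFrob IsInert dens)
open Pool.Agent.H500.ME (SolvableAt Att)

/-- `ρ` is irreducible: the space is not zero, and the only stable subspaces are `0` and the space -/
def Irreducible {G C : Type} [Group G] [Field C] {n : ℕ} (ρ : G →* GL (Fin n) C) : Prop :=
  0 < n ∧ ∀ Y : Submodule C (Fin n → C),
    (∀ g, ∀ u ∈ Y, (ρ g : Matrix (Fin n) (Fin n) C).mulVec u ∈ Y) → Y = ⊥ ∨ Y = ⊤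

theorem result (K E : Type) [Field K] [NumberField K] [Field E] [NumberField E] (N n : ℕ)
    (hN : 2 ≤ N) (hn : 0 < n) (P : HeightOneSpectrum (𝓞 K) → (𝓞 E)[X])
    (h : ¬ Tendsto (dens (SolvableAt N n P)) atTop (𝓝 0)) (τ : E →+* ℂ) (w : ℤ)
    (v₀ : HeightOneSpectrum (𝓞 K)) (hv₀ : (N : 𝓞 K) ∉ v₀.asIdeal)
    (hJS : ∀ z ∈ ((P v₀).map (τ.comp (algebraMap (𝓞 E) E))).roots,
      (Ideal.absNorm v₀.asIdeal : ℝ) ^ (((w : ℝ) - 1) / 2) < ‖z‖ ∧
      ‖z‖ < (Ideal.absNorm v₀.asIdeal : ℝ) ^ (((w : ℝ) + 1) / 2))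
    (c : ℝ) (hc : c < 2)
    (hRS : ∃ᶠ s : ℝ in 𝓝[>] 1,
      ∑' v : {v : HeightOneSpectrum (𝓞 K) // (N : 𝓞 K) ∉ v.asIdeal},
        ‖τ ((P v.1).nextCoeff : E)‖ ^ 2 * (Ideal.absNorm v.1.asIdeal : ℝ) ^ (-((w : ℝ) + s)) ≤
      c * Real.log (1 / (s - 1))) (ℓ : ℕ) [Fact ℓ.Prime] (κ : E →+* PadicAlgCl ℓ) :
    (∃ ρ : GK K →* GL (Fin n) (PadicAlgCl ℓ), Att N n P ℓ κ ρ) ∧
    ∀ ρ : GK K →* GL (Fin n) (PadicAlgCl ℓ), Att N n P ℓ κ ρ → Irreducible ρ := by
  classical
  have hP : Pool.Agent.H500.MW.PosUD (Pool.Agent.H500.TH.SolRes N n P) :=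
    Pool.Agent.H500.MW.PosUD.mono (Pool.Agent.H500.MW.posUD_of_not h) fun _ hv => hv.solRes
  refine ⟨Pool.Agent.H500.ME.att_exists hN hP ℓ κ, fun ρ hρ => ⟨hn, ?_⟩⟩
  -- purity
  have hpure : ∀ v : HeightOneSpectrum (𝓞 K), (N : 𝓞 K) ∉ v.asIdeal →
      ∀ z ∈ ((P v).map (τ.comp (algebraMap (𝓞 E) E))).roots,
        ‖z‖ = (Ideal.absNorm v.asIdeal : ℝ) ^ ((w : ℝ) / 2) := by
    obtain ⟨m, hm⟩ := Pool.Agent.H500.ME.ram N n hN P hP
    have hmw : ∀ i, m i = w := by
      intro i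
      obtain ⟨α, hα, hα2⟩ := hm τ v₀ hv₀
      have h1 : α i ∈ ((P v₀).map (τ.comp (algebraMap (𝓞 E) E))).roots := by
        rw [hα, mem_roots (monic_prod_of_monic _ _ fun k _ => monic_X_sub_C _).ne_zero, IsRoot,
          eval_prod]
        exact Finset.prod_eq_zero (Finset.mem_univ i) (by simp)
      obtain ⟨h2, h3⟩ := hJS _ h1
      rw [hα2] at h2 h3
      have hone : (1 : ℝ) < (Ideal.absNorm v₀.asIdeal : ℝ) := by
        exact_mod_cast Pool.Agent.H500.ME.one_lt_norm v₀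
      rw [Real.rpow_lt_rpow_left_iff hone] at h2 h3
      have h4 : ((w - 1 : ℤ) : ℝ) < (m i : ℝ) := by push_cast; linarith
      have h5 : (m i : ℝ) < ((w + 1 : ℤ) : ℝ) := by push_cast; linarith
      have h6 : w - 1 < m i := by exact_mod_cast h4
      have h7 : m i < w + 1 := by exact_mod_cast h5
      omega
    intro v hv z hz
    obtain ⟨α, hα, hα2⟩ := hm τ v hv
    rw [hα, Polynomial.mem_roots', IsRoot, Polynomial.eval_prod, Finset.prod_eq_zero_iff] at hz
    obtain ⟨-, i, -, hi⟩ := hz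
    rw [Polynomial.eval_sub, Polynomial.eval_X, Polynomial.eval_C, sub_eq_zero] at hi
    rw [hi, hα2 i, hmw i]
  -- the cyclotomic character
  obtain ⟨χ, hχ⟩ : ∃ χ : GK K →* (PadicAlgCl ℓ)ˣ, Pool.Agent.H500.ME.IsCyc ℓ χ := by
    let j : E →+* Pool.Agent.H500.HC.QBar :=
      ((IsAlgClosed.lift : E →ₐ[ℚ] Pool.Agent.H500.HC.QBar) : E →+* Pool.Agent.H500.HC.QBar)
    obtain ⟨κ', -⟩ := Pool.Agent.H500.ED.exists_ext j κ
    exact (Pool.Agent.H500.ME.all_CYC K ℓ κ').1
  have hMV := Pool.Agent.H500.ME.mean_adj N n hN P hP w τ hpure ℓ κ ρ hρ χ hχ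
  set r : ℕ := Module.finrank (PadicAlgCl ℓ)
    (Pool.Agent.H500.ME.Eig (Pool.Agent.H500.ME.adj ρ) χ 0) with hr
  refine Pool.Agent.H500.ME.irr_of ρ hρ.semi hn χ ?_
  -- the coefficient of the logarithm is at most `1`
  obtain ⟨c₀, hc₀⟩ := hMV.edge
  have hre := (Complex.continuous_re.tendsto c₀).comp hc₀
  have hsum : ∀ s : ℝ, (∑' v : HeightOneSpectrum (𝓞 K),
      ((Pool.Agent.H500.ME.GV N P τ w v : ℝ) : ℂ) *
        (((Ideal.absNorm v.asIdeal : ℝ) ^ (-s) : ℝ) : ℂ)) =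
      ((∑' v : {v : HeightOneSpectrum (𝓞 K) // (N : 𝓞 K) ∉ v.asIdeal},
        ‖τ ((P v.1).nextCoeff : E)‖ ^ 2 *
          (Ideal.absNorm v.1.asIdeal : ℝ) ^ (-((w : ℝ) + s)) : ℝ) : ℂ) := by
    intro s
    have h1 : ∀ v : HeightOneSpectrum (𝓞 K), ((Pool.Agent.H500.ME.GV N P τ w v : ℝ) : ℂ) *
        (((Ideal.absNorm v.asIdeal : ℝ) ^ (-s) : ℝ) : ℂ) =
        ((Set.indicator {v : HeightOneSpectrum (𝓞 K) | (N : 𝓞 K) ∉ v.asIdeal}
          (fun v => ‖τ ((P v).nextCoeff : E)‖ ^ 2 *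
            (Ideal.absNorm v.asIdeal : ℝ) ^ (-((w : ℝ) + s))) v : ℝ) : ℂ) := by
      intro v
      have hpos : (0 : ℝ) < (Ideal.absNorm v.asIdeal : ℝ) := Pool.Agent.H358.ME.ACM.norm_pos v
      by_cases hv : (N : 𝓞 K) ∈ v.asIdeal
      · have hv' : v ∉ {v : HeightOneSpectrum (𝓞 K) | (N : 𝓞 K) ∉ v.asIdeal} := by
          rw [Set.mem_ofPred_eq]
          exact not_not.2 hv
        rw [Pool.Agent.H500.ME.GV_neg hv, Set.indicator_of_notMem hv', Complex.ofReal_zero,
          zero_mul]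
      · have hv' : v ∈ {v : HeightOneSpectrum (𝓞 K) | (N : 𝓞 K) ∉ v.asIdeal} := by
          rw [Set.mem_ofPred_eq]
          exact hv
        rw [Pool.Agent.H500.ME.GV_pos hv, Set.indicator_of_mem hv', ← Complex.ofReal_mul, neg_add, Real.rpow_add hpos, Real.rpow_neg hpos.le (w : ℝ),
          div_mul_eq_mul_div, div_eq_mul_inv]
        congr 1
        ring
    rw [tsum_congr h1, ← Complex.ofReal_tsum]
    congr 1
    exact (tsum_subtype {v : HeightOneSpectrum (𝓞 K) | (N : 𝓞 K) ∉ v.asIdeal} _).symm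
  have hre2 : Tendsto (fun s : ℝ => (∑' v : {v : HeightOneSpectrum (𝓞 K) // (N : 𝓞 K) ∉ v.asIdeal},
        ‖τ ((P v.1).nextCoeff : E)‖ ^ 2 *
          (Ideal.absNorm v.1.asIdeal : ℝ) ^ (-((w : ℝ) + s))) + r * Real.log (s - 1))
      (𝓝[>] 1) (𝓝 c₀.re) := by
    refine hre.congr fun s => ?_
    show Complex.re (_ + _) = _
    rw [hsum s, Complex.add_re, Complex.ofReal_re]
    congr 1
    rw [← Complex.ofReal_natCast, ← Complex.ofReal_mul, Complex.ofReal_re]
  by_contra hr2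
  have hr3 : (2 : ℝ) ≤ r := by
    have : 2 ≤ r := by omega
    exact_mod_cast this
  have hlog : Tendsto (fun s : ℝ => Real.log (s - 1)) (𝓝[>] 1) atBot := by
    refine Real.tendsto_log_nhdsGT_zero.comp ?_
    refine tendsto_nhdsWithin_iff.2 ⟨?_, ?_⟩
    · have h1 : Tendsto (fun s : ℝ => s - 1) (𝓝 1) (𝓝 (1 - 1)) :=
        (continuous_id.sub continuous_const).tendsto 1
      rw [sub_self] at h1
      exact h1.mono_left nhdsWithin_le_nhds
    · filter_upwards [self_mem_nhdsWithin] with s hs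
      exact sub_pos.2 (Set.mem_Ioi.1 hs)
  have h1 : Tendsto (fun s : ℝ => (r - c) * Real.log (s - 1)) (𝓝[>] 1) atBot :=
    hlog.const_mul_atBot (by linarith)
  have h2 : ∀ᶠ s : ℝ in 𝓝[>] 1, (r - c) * Real.log (s - 1) < c₀.re - 1 :=
    h1.eventually (eventually_lt_atBot _)
  have h3 : ∀ᶠ s : ℝ in 𝓝[>] 1, c₀.re - 1 <
      (∑' v : {v : HeightOneSpectrum (𝓞 K) // (N : 𝓞 K) ∉ v.asIdeal},
        ‖τ ((P v.1).nextCoeff : E)‖ ^ 2 *
          (Ideal.absNorm v.1.asIdeal : ℝ) ^ (-((w : ℝ) + s))) + r * Real.log (s - 1) :=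
    hre2.eventually (lt_mem_nhds (by linarith))
  obtain ⟨s, hs, h4, h5⟩ := (hRS.and_eventually (h2.and h3)).exists
  rw [one_div, Real.log_inv] at hs
  have h6 : (r - c) * Real.log (s - 1) = r * Real.log (s - 1) - c * Real.log (s - 1) := by ring
  linarith

end Pool.Agent.Results.MP_fa5bba_nt.SolvableResidualImages
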